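import Pool.Graph.R_seed8.Helper706.JD.G6ab
import Pool.Graph.R_seed8.Helper706.JD.H

/-!
# Products of spheres as generic submanifolds

For a map `b : Fin N → Fin d` the product of the unit spheres of the blocks of coordinates
`b i = j` is a real-analytic generic submanifold of codimension `d`, if `b` is onto.
-/

set_option autoImplicit false

open scoped Topology ContDiff ComplexConjugate
open Set Filter Complex

namespace Pool.Agent.KS6_64.JD

open Pool.Agent.Results.MP_51bf1a_an.JetDet

variable {N d : ℕ}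

/-- The product of the unit spheres of the blocks `{i | b i = j}` of coordinates of `ℂᴺ`. -/
def Spheres {N d : ℕ} (b : Fin N → Fin d) : Set (Fin N → ℂ) :=
  {x | ∀ j, ∑ i with b i = j, ‖x i‖ ^ 2 = 1}

/-- real part of a coordinate -/
noncomputable def reL (i : Fin N) : (Fin N → ℂ) →L[ℝ] ℝ :=
  reCLM.comp (ContinuousLinearMap.proj i)

/-- imaginary part of a coordinate -/
noncomputable def imL (i : Fin N) : (Fin N → ℂ) →L[ℝ] ℝ :=
  imCLM.comp (ContinuousLinearMap.proj i)

theorem reL_apply (i : Fin N) (x : Fin N → ℂ) : reL i x = (x i).re := rfl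
theorem imL_apply (i : Fin N) (x : Fin N → ℂ) : imL i x = (x i).im := rfl

/-- squared modulus of a coordinate -/
noncomputable def ns (i : Fin N) (x : Fin N → ℂ) : ℝ := reL i x * reL i x + imL i x * imL i x

theorem ns_eq (i : Fin N) (x : Fin N → ℂ) : ns i x = ‖x i‖ ^ 2 := by
  rw [ns, Complex.sq_norm, normSq_apply]; rfl

theorem ns_analytic (i : Fin N) (x : Fin N → ℂ) : AnalyticAt ℝ (ns i) x :=
  (((reL i).analyticAt x).mul ((reL i).analyticAt x)).add
    (((imL i).analyticAt x).mul ((imL i).analyticAt x))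

theorem ns_deriv (i : Fin N) (x : Fin N → ℂ) :
    HasFDerivAt (ns i) ((2 * (x i).re) • reL i + (2 * (x i).im) • imL i) x := by
  have h := (((reL i).hasFDerivAt (x := x)).mul ((reL i).hasFDerivAt (x := x))).add
    (((imL i).hasFDerivAt (x := x)).mul ((imL i).hasFDerivAt (x := x)))
  refine h.congr_fderiv ?_
  ext v
  simp [reL_apply, imL_apply]
  ring

/-- the defining function -/
noncomputable def rho (b : Fin N → Fin d) (x : Fin N → ℂ) : Fin d → ℝ :=
  fun j => ∑ i with b i = j, ns i x - 1

theorem rho_zero_iff (b : Fin N → Fin d) (x : Fin N → ℂ) : x ∈ Spheres b ↔ rho b x = 0 := by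
  simp only [Spheres, mem_ofPred_eq, rho, funext_iff, Pi.zero_apply, sub_eq_zero, ns_eq]

theorem rho_analytic (b : Fin N → Fin d) (x : Fin N → ℂ) : AnalyticAt ℝ (rho b) x := by
  rw [analyticAt_pi_iff]
  intro j
  exact (Finset.analyticAt_fun_sum _ fun i _ => ns_analytic i x).sub analyticAt_const

/-- the hermitian pairing of the block `j` -/
noncomputable def pair (b : Fin N → Fin d) (j : Fin d) (w v : Fin N → ℂ) : ℂ :=
  ∑ i with b i = j, w i * v i

theorem pair_smul (b : Fin N → Fin d) (j : Fin d) (w v : Fin N → ℂ) (c : ℂ) :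
    pair b j w (c • v) = c * pair b j w v := by
  simp only [pair, Finset.mul_sum, Pi.smul_apply, smul_eq_mul]
  exact Finset.sum_congr rfl fun i _ => by ring

/-- coordinatewise conjugation -/
noncomputable def cc (x : Fin N → ℂ) : Fin N → ℂ := fun i => conj (x i)

theorem rho_fderiv (b : Fin N → Fin d) (q v : Fin N → ℂ) (j : Fin d) :
    fderiv ℝ (rho b) q v j = (2 * pair b j (cc q) v).re := by
  have h0 : HasFDerivAt (fun x => rho b x j)
      (∑ i with b i = j, ((2 * (q i).re) • reL i + (2 * (q i).im) • imL i)) q := by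
    have := (HasFDerivAt.fun_sum (u := Finset.univ.filter fun i => b i = j)
      fun i _ => ns_deriv i q).sub_const (1 : ℝ)
    exact this
  have hd : HasFDerivAt (rho b) (fderiv ℝ (rho b) q) q :=
    (rho_analytic b q).differentiableAt.hasFDerivAt
  have e0 := (hasFDerivAt_pi'.mp hd j).unique h0
  have := congrArg (fun L : (Fin N → ℂ) →L[ℝ] ℝ => L v) e0
  simp only [ContinuousLinearMap.comp_apply, ContinuousLinearMap.proj_apply] at this
  rw [this, pair, Finset.mul_sum, Complex.re_sum, _root_.sum_apply]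
  refine Finset.sum_congr rfl fun i _ => ?_
  simp [reL_apply, imL_apply, cc]
  ring

theorem lamC_rho (b : Fin N → Fin d) (q v : Fin N → ℂ) (j : Fin d) :
    lamC (fderiv ℝ (rho b) q) v j = 2 * pair b j (cc q) v := by
  rw [lamC_apply, rho_fderiv, rho_fderiv, pair_smul]
  refine Complex.ext ?_ ?_ <;> simp

theorem exists_ne (b : Fin N → Fin d) {q : Fin N → ℂ} (hq : q ∈ Spheres b) (j : Fin d) :
    ∃ i, b i = j ∧ q i ≠ 0 := by
  by_contra h
  push Not at h
  have h1 := hq j
  rw [Finset.sum_eq_zero fun i hi => by rw [h i (Finset.mem_filter.mp hi).2]; simp] at h1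
  exact zero_ne_one h1

theorem rho_defining (b : Fin N → Fin d) {q : Fin N → ℂ} (hq : q ∈ Spheres b) :
    IsDefiningAt d (Spheres b) (rho b) q := by
  refine ⟨rho_analytic b q, Eventually.of_forall (rho_zero_iff b), ?_⟩
  rw [lamC_surj_iff]
  intro c
  choose s hs hs' using exists_ne b hq
  refine ⟨fun i => if s (b i) = i then c (b i) / (2 * conj (q i)) else 0, ?_⟩
  funext j
  rw [lamC_rho, pair, Finset.sum_eq_single (s j)]
  · have h1 : conj (q (s j)) ≠ 0 := by simpa using hs' j
    simp only [hs, if_true, cc]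
    field_simp
  · intro i hi hij
    have hb := (Finset.mem_filter.mp hi).2
    rw [if_neg (by rw [hb]; exact fun h => hij h.symm), mul_zero]
  · intro h
    exact (h (Finset.mem_filter.mpr ⟨Finset.mem_univ _, hs j⟩)).elim

theorem generic (b : Fin N → Fin d) : IsGenericSubmanifold d (Spheres b) :=
  fun _ hq => ⟨rho b, rho_defining b hq⟩

theorem tangent_iff (b : Fin N → Fin d) {x : Fin N → ℂ} (hx : x ∈ Spheres b) (v : Fin N → ℂ) :
    TangentVec d (Spheres b) x v ↔ ∀ j, (pair b j (cc x) v).re = 0 := by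
  rw [tangentVec_iff (rho_defining b hx) hx, funext_iff]
  refine forall_congr' fun j => ?_
  rw [rho_fderiv]
  simp

theorem ctangent_iff (b : Fin N → Fin d) {x : Fin N → ℂ} (hx : x ∈ Spheres b) (v : Fin N → ℂ) :
    CTangentVec d (Spheres b) x v ↔ ∀ j, pair b j (cc x) v = 0 := by
  rw [CTangentVec, tangent_iff b hx, tangent_iff b hx, ← forall_and]
  refine forall_congr' fun j => ?_
  rw [pair_smul]
  constructor
  · rintro ⟨h1, h2⟩
    refine Complex.ext h1 ?_
    simpa using h2
  · intro h
    rw [h]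
    simp

end Pool.Agent.KS6_64.JD
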