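import Pool.Agent.KS6_64.JD.Basic

/-!
# Products of spheres none of which is a circle are of finite type
-/

set_option autoImplicit false

open scoped Topology ContDiff ComplexConjugate
open Set Filter Complex

namespace Pool.Agent.KS6_64.JD

open Pool.Agent.Results.MP_51bf1a_an.JetDet

variable {N d : ℕ}

/-- the conjugate of a coordinate, as a real-linear map -/
noncomputable def cL (l : Fin N) : (Fin N → ℂ) →L[ℝ] ℂ :=
  (conjCLE : ℂ →L[ℝ] ℂ).comp (ContinuousLinearMap.proj l)

/-- the pairing as a real-linear map in the first argument -/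
noncomputable def PL (b : Fin N → Fin d) (u : Fin N → ℂ) (j : Fin d) : (Fin N → ℂ) →L[ℝ] ℂ :=
  ∑ l with b l = j, (u l) • cL l

theorem PL_apply (b : Fin N → Fin d) (u : Fin N → ℂ) (j : Fin d) (x : Fin N → ℂ) :
    PL b u j x = pair b j (cc x) u := by
  rw [PL, _root_.sum_apply, pair]
  refine Finset.sum_congr rfl fun l _ => ?_
  simp [cL, cc, mul_comm]

/-- the complex tangential vector field with the direction `u` -/
noncomputable def fieldV (b : Fin N → Fin d) (u : Fin N → ℂ) (x : Fin N → ℂ) : Fin N → ℂ :=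
  fun i => u i - PL b u (b i) x * ContinuousLinearMap.proj (R := ℝ) (φ := fun _ : Fin N => ℂ) i x

theorem fieldV_apply (b : Fin N → Fin d) (u x : Fin N → ℂ) (i : Fin N) :
    fieldV b u x i = u i - pair b (b i) (cc x) u * x i := by
  rw [fieldV, PL_apply]; rfl

theorem fieldV_contDiff (b : Fin N → Fin d) (u : Fin N → ℂ) : ContDiff ℝ ∞ (fieldV b u) := by
  rw [contDiff_pi]
  intro i
  exact contDiff_const.sub ((PL b u (b i)).contDiff.mul
    (ContinuousLinearMap.proj (R := ℝ) (φ := fun _ : Fin N => ℂ) i).contDiff)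

theorem pair_cc_self (b : Fin N → Fin d) {x : Fin N → ℂ} (hx : x ∈ Spheres b) (j : Fin d) :
    pair b j (cc x) x = 1 := by
  have h1 : pair b j (cc x) x = ((∑ i with b i = j, ‖x i‖ ^ 2 : ℝ) : ℂ) := by
    rw [pair, Complex.ofReal_sum]
    refine Finset.sum_congr rfl fun i _ => ?_
    show conj (x i) * x i = _
    rw [mul_comm, Complex.mul_conj, Complex.normSq_eq_norm_sq]
  rw [h1, hx j, ofReal_one]

theorem fieldV_tangent (b : Fin N → Fin d) (u : Fin N → ℂ) {x : Fin N → ℂ} (hx : x ∈ Spheres b) :
    CTangentVec d (Spheres b) x (fieldV b u x) := by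
  rw [ctangent_iff b hx]
  intro j
  have h : pair b j (cc x) (fieldV b u x) =
      pair b j (cc x) u - pair b j (cc x) u * pair b j (cc x) x := by
    conv_lhs => rw [pair]
    conv_rhs => rw [pair_cc_self b hx j]
    have h2 : ∀ i ∈ Finset.univ.filter (fun i => b i = j), cc x i * fieldV b u x i =
        cc x i * u i - pair b j (cc x) u * (cc x i * x i) := by
      intro i hi
      rw [fieldV_apply, (Finset.mem_filter.mp hi).2]
      ring
    rw [Finset.sum_congr rfl h2, Finset.sum_sub_distrib, ← Finset.mul_sum]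
    have h3 : ∑ i with b i = j, cc x i * x i = 1 := pair_cc_self b hx j
    rw [h3]
    rfl
  rw [h, pair_cc_self b hx, mul_one, sub_self]

theorem fieldV_fderiv (b : Fin N → Fin d) (u q w : Fin N → ℂ) (i : Fin N) :
    fderiv ℝ (fieldV b u) q w i =
      -(pair b (b i) (cc q) u * w i + q i * pair b (b i) (cc w) u) := by
  have h0 : HasFDerivAt (fun x => fieldV b u x i)
      (-((PL b u (b i) q) • ContinuousLinearMap.proj (R := ℝ) (φ := fun _ : Fin N => ℂ) i +
        (q i) • PL b u (b i))) q := by
    have h := ((PL b u (b i)).hasFDerivAt (x := q)).mul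
      ((ContinuousLinearMap.proj (R := ℝ) (φ := fun _ : Fin N => ℂ) i).hasFDerivAt (x := q))
    exact h.const_sub (u i)
  have hd : HasFDerivAt (fieldV b u) (fderiv ℝ (fieldV b u) q) q :=
    ((fieldV_contDiff b u).differentiable (by simp)).differentiableAt.hasFDerivAt
  have e0 := (hasFDerivAt_pi'.mp hd i).unique h0
  have := congrArg (fun L : (Fin N → ℂ) →L[ℝ] ℂ => L w) e0
  simp only [ContinuousLinearMap.comp_apply, ContinuousLinearMap.proj_apply] at this
  rw [this]
  simp [PL_apply]

/-- the bracket of the fields with the directions `u` and `I u` -/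
theorem bracket_apply (b : Fin N → Fin d) {q u : Fin N → ℂ} (hu : ∀ j, pair b j (cc q) u = 0)
    (i : Fin N) :
    VectorField.lieBracket ℝ (fieldV b u) (fieldV b (I • u)) q i =
      -(2 * I * pair b (b i) (cc u) u * q i) := by
  have h1 : fieldV b u q = u := by
    funext l
    rw [fieldV_apply, hu, zero_mul, sub_zero]
  have hIu : ∀ j, pair b j (cc q) (I • u) = 0 := by
    intro j
    rw [pair_smul, hu, mul_zero]
  have h2 : fieldV b (I • u) q = I • u := by
    funext l
    rw [fieldV_apply, hIu, zero_mul, sub_zero]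
  have h3 : ∀ j, pair b j (cc (I • u)) u = -I * pair b j (cc u) u := by
    intro j
    rw [pair, pair, Finset.mul_sum]
    refine Finset.sum_congr rfl fun l _ => ?_
    simp [cc]
    ring
  show (fderiv ℝ (fieldV b (I • u)) q (fieldV b u q) -
    fderiv ℝ (fieldV b u) q (fieldV b (I • u) q)) i = _
  rw [h1, h2, Pi.sub_apply, fieldV_fderiv, fieldV_fderiv, hIu, hu, h3, pair_smul]
  ring

theorem finiteType (b : Fin N → Fin d) (h2 : ∀ i, ∃ i', i' ≠ i ∧ b i' = b i) {q : Fin N → ℂ}
    (hq : q ∈ Spheres b) : FiniteTypeAt d (Spheres b) q := by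
  intro v hv
  rw [tangent_iff b hq] at hv
  set T : Set (Fin N → ℂ) := {w | ∃ V, IteratedBracket d (Spheres b) q V ∧ w = V q} with hT
  have hbase : ∀ u, IteratedBracket d (Spheres b) q (fieldV b u) := fun u =>
    IteratedBracket.base _ (fieldV_contDiff b u).contDiffAt
      (Eventually.of_forall fun x hx => fieldV_tangent b u hx)
  have hH : ∀ u, (∀ j, pair b j (cc q) u = 0) → u ∈ Submodule.span ℝ T := by
    intro u hu
    refine Submodule.subset_span ⟨fieldV b u, hbase u, ?_⟩
    funext l
    rw [fieldV_apply, hu, zero_mul, sub_zero]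
  -- the missing directions
  have hI : ∀ j, (fun i => if b i = j then I * q i else 0 : Fin N → ℂ) ∈ Submodule.span ℝ T := by
    intro j
    obtain ⟨i₁, hb1, hq1⟩ := exists_ne b hq j
    obtain ⟨i₂, hne, hb2⟩ := h2 i₁
    rw [hb1] at hb2
    set u : Fin N → ℂ := Pi.single i₁ (conj (q i₂)) - Pi.single i₂ (conj (q i₁)) with hu
    have hu1 : u i₁ = conj (q i₂) := by simp [hu, hne.symm]
    have hu2 : u i₂ = -conj (q i₁) := by simp [hu, hne]
    have hu0 : ∀ i, i ≠ i₁ → i ≠ i₂ → u i = 0 := by
      intro i h1 h2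
      simp [hu, h1, h2]
    have hpair : ∀ j', pair b j' (cc q) u = 0 := by
      intro j'
      by_cases hj : j' = j
      · subst hj
        rw [pair, ← Finset.sum_subset (s₁ := {i₁, i₂})]
        · rw [Finset.sum_pair hne.symm, hu1, hu2]
          simp only [cc]
          ring
        · intro i hi
          simp only [Finset.mem_insert, Finset.mem_singleton] at hi
          rcases hi with rfl | rfl
          · simp [hb1]
          · simp [hb2]
        · intro i _ hi
          simp only [Finset.mem_insert, Finset.mem_singleton, not_or] at hi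
          rw [hu0 i hi.1 hi.2, mul_zero]
      · refine Finset.sum_eq_zero fun i hi => ?_
        have hbi := (Finset.mem_filter.mp hi).2
        have e1 : i ≠ i₁ := by rintro rfl; exact hj (hbi.symm.trans hb1)
        have e2 : i ≠ i₂ := by rintro rfl; exact hj (hbi.symm.trans hb2)
        rw [hu0 i e1 e2, mul_zero]
    -- the norm of `u`
    have hn : ∀ j', pair b j' (cc u) u = ((∑ i with b i = j', ‖u i‖ ^ 2 : ℝ) : ℂ) := by
      intro j'
      rw [pair, Complex.ofReal_sum]
      refine Finset.sum_congr rfl fun i _ => ?_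
      show conj (u i) * u i = _
      rw [mul_comm, Complex.mul_conj, Complex.normSq_eq_norm_sq]
    have hn0 : ∀ j', j' ≠ j → ∑ i with b i = j', ‖u i‖ ^ 2 = 0 := by
      intro j' hj
      refine Finset.sum_eq_zero fun i hi => ?_
      have hbi := (Finset.mem_filter.mp hi).2
      have e1 : i ≠ i₁ := by rintro rfl; exact hj (hbi.symm.trans hb1)
      have e2 : i ≠ i₂ := by rintro rfl; exact hj (hbi.symm.trans hb2)
      rw [hu0 i e1 e2]
      simp
    set c : ℝ := ∑ i with b i = j, ‖u i‖ ^ 2 with hc
    have hcpos : 0 < c := by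
      have h1 : ‖u i₂‖ ^ 2 ≤ c := by
        rw [hc]
        refine Finset.single_le_sum (f := fun i => ‖u i‖ ^ 2) (fun i _ => sq_nonneg _) ?_
        simp [hb2]
      have h3 : 0 < ‖u i₂‖ := by
        rw [norm_pos_iff, hu2]
        simpa using hq1
      have h4 : 0 < ‖u i₂‖ ^ 2 := by positivity
      exact lt_of_lt_of_le h4 h1
    have hbr : VectorField.lieBracket ℝ (fieldV b u) (fieldV b (I • u)) q ∈
        Submodule.span ℝ T :=
      Submodule.subset_span ⟨_, IteratedBracket.bracket _ _ (hbase u) (hbase (I • u)), rfl⟩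
    have hsm := Submodule.smul_mem _ (-(1 / (2 * c)) : ℝ) hbr
    convert hsm using 1
    funext i
    rw [Pi.smul_apply, bracket_apply b hpair, hn, Complex.real_smul]
    by_cases hbi : b i = j
    · rw [if_pos hbi, hbi, ← hc]
      have : (c : ℂ) ≠ 0 := by exact_mod_cast hcpos.ne'
      push_cast
      field_simp
    · rw [if_neg hbi, hn0 _ hbi]
      simp
  -- decompose `v`
  set r : Fin d → ℝ := fun j => (pair b j (cc q) v).im with hr
  have hv' : ∀ j, pair b j (cc q) v = I * (r j : ℂ) := by
    intro j
    refine Complex.ext ?_ ?_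
    · simp [hv j]
    · simp [hr]
  set h : Fin N → ℂ := fun i => v i - (r (b i) : ℂ) * (I * q i) with hh
  have hh0 : ∀ j, pair b j (cc q) h = 0 := by
    intro j
    have e : pair b j (cc q) h = pair b j (cc q) v - I * (r j : ℂ) * pair b j (cc q) q := by
      rw [pair, pair, pair, Finset.mul_sum, ← Finset.sum_sub_distrib]
      refine Finset.sum_congr rfl fun i hi => ?_
      simp only [hh]
      rw [(Finset.mem_filter.mp hi).2]
      ring
    rw [e, hv', pair_cc_self b hq, mul_one, sub_self]
  have hdec : v = h + ∑ j, (r j) • (fun i => if b i = j then I * q i else 0 : Fin N → ℂ) := by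
    funext i
    rw [Pi.add_apply, Finset.sum_apply, Finset.sum_eq_single (b i)]
    · simp [hh]
    · intro j _ hj
      simp [hj.symm]
    · intro hn
      exact absurd (Finset.mem_univ _) hn
  rw [hdec]
  exact Submodule.add_mem _ (hH h hh0)
    (Submodule.sum_mem _ fun j _ => Submodule.smul_mem _ _ (hI j))

end Pool.Agent.KS6_64.JD
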