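import Pool.Agent.KS6_64.JD.Basic

/-!
# No finite jet determination if one of the spheres is a circle

If `i₀` is alone in its block, then `zᵢ₀ ↦ zᵢ₀ ((a zᵢ₀)ᵐ + i (zᵢ₀ - a)²ᵐ) / ((a zᵢ₀)ᵐ - i (zᵢ₀ - a)²ᵐ)`
preserves the moduli of the coordinates of the points of the product, and agrees with the identity
to the order `2 m - 1` at the point whose coordinate is `a`.
-/

set_option autoImplicit false

open scoped Topology ContDiff ComplexConjugate
open Set Filter Complex

namespace Pool.Agent.KS6_64.JD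

open Pool.Agent.Results.MP_51bf1a_an.JetDet

variable {N d : ℕ}

/-- the denominator -/
noncomputable def den (a : ℂ) (m : ℕ) (ζ : ℂ) : ℂ := (a * ζ) ^ m - I * (ζ - a) ^ (2 * m)

/-- the displacement -/
noncomputable def disp (a : ℂ) (m : ℕ) (ζ : ℂ) : ℂ :=
  (ζ - a) ^ (2 * m) * (2 * I * ζ / den a m ζ)

theorem den_base {a : ℂ} (ha : ‖a‖ = 1) {m : ℕ} (hm : 1 ≤ m) : den a m a ≠ 0 := by
  have ha0 : a ≠ 0 := by rintro rfl; simp at ha
  rw [den, sub_self, zero_pow (by omega), mul_zero, sub_zero]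
  exact pow_ne_zero _ (mul_ne_zero ha0 ha0)

/-- on the circle `(ζ - a)²` is a real multiple of `a ζ` -/
theorem sq_eq {a ζ : ℂ} (ha : ‖a‖ = 1) (hζ : ‖ζ‖ = 1) :
    ∃ r : ℝ, (ζ - a) ^ 2 = (r : ℂ) * (a * ζ) := by
  refine ⟨2 * (ζ * conj a).re - 2, ?_⟩
  have h1 : a * conj a = 1 := by
    rw [Complex.mul_conj, Complex.normSq_eq_norm_sq, ha]; simp
  have h2 : ζ * conj ζ = 1 := by
    rw [Complex.mul_conj, Complex.normSq_eq_norm_sq, hζ]; simp
  have h3 : ((2 * (ζ * conj a).re : ℝ) : ℂ) = ζ * conj a + a * conj ζ := by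
    have := Complex.add_conj (ζ * conj a)
    rw [map_mul, Complex.conj_conj] at this
    push_cast at this ⊢
    rw [← this]
    ring
  rw [Complex.ofReal_sub, h3]
  push_cast
  linear_combination (-(ζ ^ 2)) * h1 + (-(a ^ 2)) * h2

theorem disp_norm {a ζ : ℂ} (ha : ‖a‖ = 1) (hζ : ‖ζ‖ = 1) (m : ℕ) :
    ‖ζ + disp a m ζ‖ = 1 := by
  obtain ⟨r, hr⟩ := sq_eq ha hζ
  have ha0 : a ≠ 0 := by rintro rfl; simp at ha
  have hζ0 : ζ ≠ 0 := by rintro rfl; simp at hζ
  have h1 : (ζ - a) ^ (2 * m) = (r : ℂ) ^ m * (a * ζ) ^ m := by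
    rw [pow_mul, hr, mul_pow]
  have hu : (a * ζ) ^ m ≠ 0 := pow_ne_zero _ (mul_ne_zero ha0 hζ0)
  have h1' : (ζ - a) ^ (2 * m) = ((r ^ m : ℝ) : ℂ) * (a * ζ) ^ m := by
    rw [h1]; push_cast; ring
  rw [disp, den, h1']
  generalize r ^ m = t
  generalize (a * ζ) ^ m = u at hu
  have hv : (1 - I * (t : ℂ)) ≠ 0 := by
    intro h
    have := congrArg Complex.re h
    simp at this
  have h3 : conj (1 - I * (t : ℂ)) = 1 + I * (t : ℂ) := by
    rw [map_sub, map_mul, Complex.conj_ofReal, Complex.conj_I, map_one]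
    ring
  have h2 : ζ + (t : ℂ) * u * (2 * I * ζ / (u - I * ((t : ℂ) * u))) =
      ζ * ((1 + I * (t : ℂ)) / (1 - I * (t : ℂ))) := by
    have e1 : u - I * ((t : ℂ) * u) = u * (1 - I * (t : ℂ)) := by ring
    have e2 : 1 + I * (t : ℂ) = (1 - I * (t : ℂ)) + 2 * I * t := by ring
    rw [e1, e2]
    generalize (1 - I * (t : ℂ)) = w at hv
    field_simp
  rw [h2, norm_mul, hζ, one_mul, norm_div, ← h3, RCLike.norm_conj]
  exact div_self (norm_ne_zero_iff.2 hv)

theorem disp_analytic {a ζ : ℂ} {m : ℕ} (h : den a m ζ ≠ 0) : AnalyticAt ℂ (disp a m) ζ := by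
  have h1 : AnalyticAt ℂ (den a m) ζ := by
    show AnalyticAt ℂ (fun ζ => (a * ζ) ^ m - I * (ζ - a) ^ (2 * m)) ζ
    fun_prop
  have h2 : AnalyticAt ℂ (fun ζ : ℂ => 2 * I * ζ / den a m ζ) ζ :=
    (analyticAt_const.mul analyticAt_id).fun_div h1 h
  exact ((analyticAt_id.sub analyticAt_const).pow _).mul h2

theorem disp_jets {a : ℂ} (ha : ‖a‖ = 1) {m : ℕ} (hm : 1 ≤ m) (j : ℕ) (hj : j < 2 * m) :
    iteratedDeriv j (disp a m) a = 0 := by
  have han := disp_analytic (den_base ha hm)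
  have h : ((2 * m : ℕ) : ℕ∞) ≤ analyticOrderAt (disp a m) a := by
    rw [natCast_le_analyticOrderAt han]
    have h1 : AnalyticAt ℂ (den a m) a := by
      show AnalyticAt ℂ (fun ζ => (a * ζ) ^ m - I * (ζ - a) ^ (2 * m)) a
      fun_prop
    refine ⟨fun ζ => 2 * I * ζ / den a m ζ,
      (analyticAt_const.mul analyticAt_id).fun_div h1 (den_base ha hm), ?_⟩
    exact Eventually.of_forall fun ζ => rfl
  exact (natCast_le_analyticOrderAt_iff_iteratedDeriv_eq_zero han).1 h j hj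

/-- the perturbation of the identity -/
noncomputable def pert (i₀ : Fin N) (a : ℂ) (m : ℕ) (z : Fin N → ℂ) : Fin N → ℂ :=
  disp a m (z i₀) • (Pi.single i₀ 1 : Fin N → ℂ)

theorem den_continuous (a : ℂ) (m : ℕ) : Continuous (den a m) := by
  show Continuous fun ζ => (a * ζ) ^ m - I * (ζ - a) ^ (2 * m)
  fun_prop

theorem pert_analytic (i₀ : Fin N) (a : ℂ) (m : ℕ) (z : Fin N → ℂ) (h : den a m (z i₀) ≠ 0) :
    AnalyticAt ℂ (pert i₀ a m) z := by
  have hp : AnalyticAt ℂ (fun x : Fin N → ℂ => x i₀) z :=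
    (ContinuousLinearMap.proj (R := ℂ) (φ := fun _ : Fin N => ℂ) i₀).analyticAt z
  have h1 : AnalyticAt ℂ (fun x : Fin N → ℂ => disp a m (x i₀)) z :=
    AnalyticAt.comp_of_eq (disp_analytic h) hp rfl
  exact h1.smul analyticAt_const

theorem pert_iterated (i₀ : Fin N) {p : Fin N → ℂ} (hp : ‖p i₀‖ = 1) {m : ℕ} (hm : 1 ≤ m) (j : ℕ)
    (hj : j < 2 * m) : iteratedFDeriv ℂ j (pert i₀ (p i₀) m) p = 0 := by
  set L : (Fin N → ℂ) →L[ℂ] ℂ := ContinuousLinearMap.proj i₀ with hL
  set a := p i₀ with ha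
  set f : ℂ → (Fin N → ℂ) := fun ζ => disp a m ζ • (Pi.single i₀ 1 : Fin N → ℂ) with hf
  have h1 : pert i₀ a m = f ∘ L := rfl
  set s : Set ℂ := {ζ | den a m ζ ≠ 0} with hs
  have hso : IsOpen s := isOpen_ne_fun (den_continuous a m) continuous_const
  have hfc : ContDiffOn ℂ j f s := by
    intro ζ hζ
    exact ((disp_analytic hζ).contDiffAt.smul contDiffAt_const).contDiffWithinAt
  have hLp : L p ∈ s := den_base hp hm
  have hsp : IsOpen (L ⁻¹' s) := hso.preimage L.continuous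
  have h2 := ContinuousLinearMap.iteratedFDerivWithin_comp_right L hfc hso.uniqueDiffOn
    hsp.uniqueDiffOn (x := p) hLp (i := j) le_rfl
  rw [iteratedFDerivWithin_of_isOpen j hsp hLp, iteratedFDerivWithin_of_isOpen j hso hLp] at h2
  rw [h1, h2]
  have h3 : iteratedFDeriv ℂ j f (L p) = 0 := by
    have h4 : iteratedFDeriv ℂ j (disp a m) (L p) = 0 := by
      rw [← norm_eq_zero, norm_iteratedFDeriv_eq_norm_iteratedDeriv, norm_eq_zero]
      exact disp_jets hp hm j hj
    have h5 : f = (ContinuousLinearMap.toSpanSingleton ℂ (Pi.single i₀ 1 : Fin N → ℂ)) ∘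
        disp a m := by
      funext ζ
      simp [hf]
    rw [h5, ContinuousLinearMap.iteratedFDeriv_comp_left _
      (disp_analytic hLp).contDiffAt (i := j) (n := j) le_rfl, h4]
    ext v
    simp
  rw [h3]
  rfl

theorem pert_fderiv (i₀ : Fin N) {p : Fin N → ℂ} (hp : ‖p i₀‖ = 1) {m : ℕ} (hm : 1 ≤ m) :
    HasFDerivAt (pert i₀ (p i₀) m) (0 : (Fin N → ℂ) →L[ℂ] (Fin N → ℂ)) p := by
  have h0 := disp_analytic (den_base hp hm)
  have h1 : HasDerivAt (disp (p i₀) m) 0 (p i₀) := by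
    have h := h0.differentiableAt.hasDerivAt
    have h2 := disp_jets hp hm 1 (by omega)
    rw [iteratedDeriv_one] at h2
    rwa [h2] at h
  have h2 := h1.hasFDerivAt.comp p
    ((ContinuousLinearMap.proj (R := ℂ) (φ := fun _ : Fin N => ℂ) i₀).hasFDerivAt (x := p))
  have h3 := h2.smul_const (Pi.single i₀ 1 : Fin N → ℂ)
  refine h3.congr_fderiv ?_
  ext v i
  simp

theorem no_jets {b : Fin N → Fin d} {i₀ : Fin N} (h₀ : ∀ i, b i = b i₀ → i = i₀)
    {p : Fin N → ℂ} (hp : p ∈ Spheres b) (k : ℕ) : ¬ DeterminedByJets (Spheres b) p k := by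
  intro hdet
  have hblock : (Finset.univ.filter fun i => b i = b i₀) = {i₀} := by
    ext i
    simp only [Finset.mem_filter, Finset.mem_univ, true_and, Finset.mem_singleton]
    exact ⟨h₀ i, fun h => by rw [h]⟩
  have hmod : ∀ x ∈ Spheres b, ‖x i₀‖ = 1 := by
    intro x hx
    have h := hx (b i₀)
    rw [hblock, Finset.sum_singleton] at h
    have h1 := norm_nonneg (x i₀)
    nlinarith
  set m := k + 1 with hm
  have hm1 : 1 ≤ m := by omega
  set a := p i₀ with ha
  have ha1 : ‖a‖ = 1 := hmod p hp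
  have hid : IsLocalAutomorphism (Spheres b) p (fun z => z) := by
    refine ⟨analyticAt_id, rfl, ?_, Eventually.of_forall fun x hx => hx⟩
    have : fderiv ℂ (fun z : Fin N → ℂ => z) p = ContinuousLinearMap.id ℂ _ := fderiv_fun_id
    rw [this]
    exact Function.bijective_id
  have hp0 : pert i₀ a m p = 0 := by
    rw [pert, ← ha, disp, sub_self, zero_pow (by omega), zero_mul, zero_smul]
  have hH : IsLocalAutomorphism (Spheres b) p (fun z => z + pert i₀ a m z) := by
    refine ⟨analyticAt_id.add (pert_analytic i₀ a m p (den_base ha1 hm1)), ?_, ?_, ?_⟩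
    · show p + pert i₀ a m p = p
      rw [hp0, add_zero]
    · have h1 : HasFDerivAt (fun z => z + pert i₀ a m z)
          (ContinuousLinearMap.id ℂ (Fin N → ℂ) + 0) p :=
        (hasFDerivAt_id p).add (pert_fderiv i₀ ha1 hm1)
      rw [h1.fderiv, add_zero]
      exact Function.bijective_id
    · refine Eventually.of_forall fun x hx => ?_
      have hn : ∀ i, ‖(x + pert i₀ a m x) i‖ = ‖x i‖ := by
        intro i
        by_cases hi : i = i₀
        · rw [hi]
          have e : (x + pert i₀ a m x) i₀ = x i₀ + disp a m (x i₀) := by simp [pert]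
          rw [e, disp_norm ha1 (hmod x hx) m, hmod x hx]
        · have e : (x + pert i₀ a m x) i = x i := by simp [pert, hi]
          rw [e]
      intro j
      simp only [hn]
      exact hx j
  have hjet : SameJet k p (fun z => z) (fun z => z + pert i₀ a m z) := by
    intro j hj
    have h1 : iteratedFDeriv ℂ j (fun z => z + pert i₀ a m z) p
        = iteratedFDeriv ℂ j (fun z => z) p + iteratedFDeriv ℂ j (pert i₀ a m) p := by
      have hc1 : ContDiffAt ℂ j (fun z : Fin N → ℂ => z) p := contDiffAt_id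
      have hc2 : ContDiffAt ℂ j (pert i₀ a m) p :=
        (pert_analytic i₀ a m p (den_base ha1 hm1)).contDiffAt
      exact iteratedFDeriv_add_apply hc1 hc2
    rw [h1, pert_iterated i₀ ha1 hm1 j (by omega), add_zero]
  have heq := hdet _ _ hid hH hjet
  have hline : Tendsto (fun ζ : ℂ => Function.update p i₀ ζ) (𝓝 a) (𝓝 p) := by
    have h1 : Continuous (fun ζ : ℂ => Function.update p i₀ ζ) :=
      continuous_const.update i₀ continuous_id
    have h2 := h1.tendsto (p i₀)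
    rwa [Function.update_eq_self] at h2
  have hev := hline.eventually heq
  have hd : ∀ᶠ ζ in 𝓝 a, den a m ζ ≠ 0 :=
    (den_continuous a m).continuousAt.eventually_ne (den_base ha1 hm1)
  have ha0 : a ≠ 0 := by rintro h; rw [h] at ha1; simp at ha1
  have hz : ∀ᶠ ζ in 𝓝 a, ζ ≠ 0 := continuousAt_id.eventually_ne ha0
  obtain ⟨ζ, ⟨hζ, hζd, hζ0⟩, hne⟩ := (((hev.and (hd.and hz)).filter_mono nhdsWithin_le_nhds).and
      (self_mem_nhdsWithin : {w | w ≠ a} ∈ 𝓝[≠] a)).exists
  have h5 := congrFun hζ i₀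
  simp only [Pi.add_apply, pert, Function.update_self, Pi.smul_apply, Pi.single_eq_same,
    smul_eq_mul, mul_one] at h5
  have h6 : disp a m ζ = 0 := by linear_combination -h5
  rw [disp] at h6
  rcases mul_eq_zero.1 h6 with h7 | h7
  · exact hne (sub_eq_zero.1 (pow_eq_zero_iff (by omega) |>.1 h7))
  · rcases div_eq_zero_iff.1 h7 with h8 | h8
    · rcases mul_eq_zero.1 h8 with h9 | h9
      · simp at h9
      · exact hζ0 h9
    · exact hζd h8

end Pool.Agent.KS6_64.JD
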