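import Pool.Agent.KS6_64.JD.Basic

/-!
# Products of spheres are holomorphically nondegenerate

The proof polarises the tangency relation at the radial projections of the points near the given one.
-/

set_option autoImplicit false

open scoped Topology ContDiff ComplexConjugate
open Set Filter Complex

namespace Pool.Agent.KS6_64.JD

open Pool.Agent.Results.MP_51bf1a_an.JetDet

variable {N d : ℕ}

/-- the coordinates in which `(y, conj y)` is real -/
noncomputable def lin (q : Fin N → ℂ) (u : Fin (N + N) → ℂ) : (Fin N → ℂ) × (Fin N → ℂ) :=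
  (fun i => q i + (u (Fin.castAdd N i) + I * u (Fin.natAdd N i)),
    fun i => conj (q i) + (u (Fin.castAdd N i) - I * u (Fin.natAdd N i)))

/-- the inverse coordinates -/
noncomputable def linInv (q : Fin N → ℂ) (z : (Fin N → ℂ) × (Fin N → ℂ)) : Fin (N + N) → ℂ :=
  Fin.append (fun i => ((z.1 i - q i) + (z.2 i - conj (q i))) / 2)
    (fun i => ((z.1 i - q i) - (z.2 i - conj (q i))) / (2 * I))

theorem lin_analytic (q : Fin N → ℂ) (u : Fin (N + N) → ℂ) : AnalyticAt ℂ (lin q) u := by
  have hp : ∀ i : Fin (N + N), AnalyticAt ℂ (fun x : Fin (N + N) → ℂ => x i) u := fun i =>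
    (ContinuousLinearMap.proj (R := ℂ) (φ := fun _ : Fin (N + N) => ℂ) i).analyticAt u
  refine AnalyticAt.prod ?_ ?_
  · rw [analyticAt_pi_iff]
    intro i
    exact analyticAt_const.add ((hp _).add (analyticAt_const.mul (hp _)))
  · rw [analyticAt_pi_iff]
    intro i
    exact analyticAt_const.add ((hp _).sub (analyticAt_const.mul (hp _)))

theorem linInv_continuous (q : Fin N → ℂ) : Continuous (linInv q) := by
  refine continuous_pi fun k => ?_
  refine Fin.addCases (fun i => ?_) (fun i => ?_) k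
  · simp only [linInv, Fin.append_left]
    fun_prop
  · simp only [linInv, Fin.append_right]
    fun_prop

theorem lin_linInv (q : Fin N → ℂ) (z : (Fin N → ℂ) × (Fin N → ℂ)) : lin q (linInv q z) = z := by
  have hI : I ≠ 0 := I_ne_zero
  refine Prod.ext ?_ ?_
  · funext i
    simp only [lin, linInv, Fin.append_left, Fin.append_right]
    field_simp
    ring
  · funext i
    simp only [lin, linInv, Fin.append_left, Fin.append_right]
    field_simp
    ring

/-- **Polarisation.** -/
theorem polarise {q : Fin N → ℂ} {f : (Fin N → ℂ) × (Fin N → ℂ) → ℂ}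
    (hf : AnalyticAt ℂ f (q, cc q)) (h0 : ∀ᶠ y in 𝓝 q, f (y, cc y) = 0) :
    ∀ᶠ z in 𝓝 (q, cc q), f z = 0 := by
  have hl0 : lin q 0 = (q, cc q) := by
    refine Prod.ext ?_ ?_ <;> funext i <;> simp [lin, cc]
  have h1 : AnalyticAt ℂ (fun u => f (lin q u)) 0 := by
    have hf' : AnalyticAt ℂ f (lin q 0) := by rw [hl0]; exact hf
    exact hf'.comp (lin_analytic q 0)
  have h2 : ∀ᶠ x in 𝓝 (0 : Fin (N + N) → ℂ), f (lin q x) = 0 := by
    refine CEx.real_identity h1 ?_
    have hc : Continuous (fun r : Fin (N + N) → ℝ => fun i : Fin N =>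
        q i + ((r (Fin.castAdd N i) : ℂ) + I * (r (Fin.natAdd N i) : ℂ))) := by fun_prop
    have ht : Tendsto (fun r : Fin (N + N) → ℝ => fun i : Fin N =>
        q i + ((r (Fin.castAdd N i) : ℂ) + I * (r (Fin.natAdd N i) : ℂ))) (𝓝 0) (𝓝 q) := by
      have h := hc.tendsto 0
      have e : (fun i : Fin N => q i + (((0 : Fin (N + N) → ℝ) (Fin.castAdd N i) : ℂ) +
          I * ((0 : Fin (N + N) → ℝ) (Fin.natAdd N i) : ℂ))) = q := by
        funext i
        simp
      rwa [e] at h
    filter_upwards [ht.eventually h0] with r hr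
    have e2 : lin q (fun i => (0 : Fin (N + N) → ℂ) i + (r i : ℂ)) =
        ((fun i : Fin N => q i + ((r (Fin.castAdd N i) : ℂ) + I * (r (Fin.natAdd N i) : ℂ))),
          cc (fun i : Fin N =>
            q i + ((r (Fin.castAdd N i) : ℂ) + I * (r (Fin.natAdd N i) : ℂ)))) := by
      refine Prod.ext ?_ ?_
      · funext i
        simp [lin]
      · funext i
        simp [lin, cc]
        ring
    rw [e2]
    exact hr
  have h3 : Tendsto (linInv q) (𝓝 (q, cc q)) (𝓝 0) := by
    have h := (linInv_continuous q).tendsto (q, cc q)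
    have e : linInv q (q, cc q) = 0 := by
      funext k
      refine Fin.addCases (fun i => ?_) (fun i => ?_) k
      · simp only [linInv, Fin.append_left]
        simp [cc]
      · simp only [linInv, Fin.append_right]
        simp [cc]
    rwa [e] at h
  filter_upwards [h3.eventually h2] with z hz
  rwa [lin_linInv] at hz

/-- the pairing of the blocks -/
noncomputable def S (b : Fin N → Fin d) (j : Fin d) (z : (Fin N → ℂ) × (Fin N → ℂ)) : ℂ :=
  pair b j z.2 z.1

/-- the radial projection -/
noncomputable def R (b : Fin N → Fin d) (z : (Fin N → ℂ) × (Fin N → ℂ)) : Fin N → ℂ :=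
  fun i => z.1 i * Complex.exp (-(1 / 2) * Complex.log (S b (b i) z))

theorem fst_an (i : Fin N) (z : (Fin N → ℂ) × (Fin N → ℂ)) :
    AnalyticAt ℂ (fun z : (Fin N → ℂ) × (Fin N → ℂ) => z.1 i) z :=
  ((ContinuousLinearMap.proj (R := ℂ) (φ := fun _ : Fin N => ℂ) i).comp
    (ContinuousLinearMap.fst ℂ (Fin N → ℂ) (Fin N → ℂ))).analyticAt z

theorem snd_an (i : Fin N) (z : (Fin N → ℂ) × (Fin N → ℂ)) :
    AnalyticAt ℂ (fun z : (Fin N → ℂ) × (Fin N → ℂ) => z.2 i) z :=
  ((ContinuousLinearMap.proj (R := ℂ) (φ := fun _ : Fin N => ℂ) i).comp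
    (ContinuousLinearMap.snd ℂ (Fin N → ℂ) (Fin N → ℂ))).analyticAt z

theorem S_analytic (b : Fin N → Fin d) (j : Fin d) (z : (Fin N → ℂ) × (Fin N → ℂ)) :
    AnalyticAt ℂ (S b j) z := by
  show AnalyticAt ℂ (fun z : (Fin N → ℂ) × (Fin N → ℂ) => ∑ i with b i = j, z.2 i * z.1 i) z
  exact Finset.analyticAt_fun_sum _ fun i _ => (snd_an i z).fun_mul (fst_an i z)

theorem S_diag (b : Fin N → Fin d) (j : Fin d) (y : Fin N → ℂ) :
    S b j (y, cc y) = ((∑ i with b i = j, ‖y i‖ ^ 2 : ℝ) : ℂ) := by
  rw [S, pair, Complex.ofReal_sum]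
  refine Finset.sum_congr rfl fun i _ => ?_
  show conj (y i) * y i = _
  rw [mul_comm, Complex.mul_conj, Complex.normSq_eq_norm_sq]

theorem S_base (b : Fin N → Fin d) (j : Fin d) {q : Fin N → ℂ} (hq : q ∈ Spheres b) :
    S b j (q, cc q) = 1 := by
  rw [S_diag, hq j, ofReal_one]

theorem R_of_S (b : Fin N → Fin d) (z : (Fin N → ℂ) × (Fin N → ℂ)) (h : ∀ j, S b j z = 1) :
    R b z = z.1 := by
  funext i
  simp [R, h]

theorem R_analytic (b : Fin N → Fin d) {q : Fin N → ℂ} (hq : q ∈ Spheres b) :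
    AnalyticAt ℂ (R b) (q, cc q) := by
  rw [analyticAt_pi_iff]
  intro i
  refine (fst_an i _).mul ?_
  refine AnalyticAt.cexp (analyticAt_const.mul ?_)
  refine (S_analytic b (b i) _).clog ?_
  rw [S_base b _ hq]
  exact one_mem_slitPlane

/-- the radial projection of a point near `Spheres b` is in `Spheres b` -/
theorem R_mem (b : Fin N → Fin d) (y : Fin N → ℂ)
    (h : ∀ j, 0 < ∑ i with b i = j, ‖y i‖ ^ 2) : R b (y, cc y) ∈ Spheres b := by
  intro j
  have h1 : ∀ i ∈ Finset.univ.filter (fun i => b i = j), ‖R b (y, cc y) i‖ ^ 2 =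
      ‖y i‖ ^ 2 * (∑ i with b i = j, ‖y i‖ ^ 2)⁻¹ := by
    intro i hi
    have hb := (Finset.mem_filter.mp hi).2
    rw [R]
    simp only
    rw [hb, S_diag, norm_mul, mul_pow, Complex.norm_exp]
    congr 1
    have e : (-(1 / 2) * Complex.log ((∑ i with b i = j, ‖y i‖ ^ 2 : ℝ) : ℂ)).re =
        -(1 / 2) * Real.log (∑ i with b i = j, ‖y i‖ ^ 2) := by
      rw [← Complex.ofReal_log (h j).le]
      simp
    rw [e, ← Real.exp_nat_mul]
    have e2 : ((2 : ℕ) : ℝ) * (-(1 / 2) * Real.log (∑ i with b i = j, ‖y i‖ ^ 2)) =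
        -Real.log (∑ i with b i = j, ‖y i‖ ^ 2) := by
      push_cast
      ring
    rw [e2, Real.exp_neg, Real.exp_log (h j)]
  rw [Finset.sum_congr rfl h1, ← Finset.sum_mul]
  exact mul_inv_cancel₀ (h j).ne'

theorem nondegenerate (b : Fin N → Fin d) : HolomorphicallyNondegenerate d (Spheres b) := by
  intro q hq a ha hT
  -- the polarised relation
  have hpos : ∀ᶠ y in 𝓝 q, ∀ j, 0 < ∑ i with b i = j, ‖y i‖ ^ 2 := by
    rw [eventually_all]
    intro j
    have hc : Continuous (fun y : Fin N → ℂ => ∑ i with b i = j, ‖y i‖ ^ 2) := by fun_prop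
    exact hc.continuousAt.eventually (lt_mem_nhds (by
      show 0 < ∑ i with b i = j, ‖q i‖ ^ 2
      rw [hq j]; exact one_pos))
  have hcc : Continuous (cc : (Fin N → ℂ) → (Fin N → ℂ)) :=
    continuous_pi fun i => continuous_conj.comp (continuous_apply i)
  have hdiag : Continuous (fun y : Fin N → ℂ => (y, cc y)) := continuous_id.prodMk hcc
  have hRq : R b (q, cc q) = q := R_of_S b _ fun j => S_base b j hq
  have hRt : Tendsto (fun y : Fin N → ℂ => R b (y, cc y)) (𝓝 q) (𝓝 q) := by
    have h := (R_analytic b hq).continuousAt.tendsto.comp (hdiag.tendsto q)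
    rwa [hRq] at h
  have hG : ∀ j, ∀ᶠ z in 𝓝 (q, cc q), pair b j z.2 (a (R b z)) = 0 := by
    intro j
    refine polarise (f := fun z => pair b j z.2 (a (R b z))) ?_ ?_
    · show AnalyticAt ℂ (fun z : (Fin N → ℂ) × (Fin N → ℂ) =>
        ∑ i with b i = j, z.2 i * a (R b z) i) (q, cc q)
      refine Finset.analyticAt_fun_sum _ fun i _ => (snd_an i _).fun_mul ?_
      have ha' : AnalyticAt ℂ a (R b (q, cc q)) := by rw [hRq]; exact ha
      exact (analyticAt_pi_iff.1 (ha'.comp (R_analytic b hq))) i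
    · filter_upwards [hpos, hRt.eventually hT] with y hy1 hy2
      have hm := R_mem b y hy1
      have h1 := (ctangent_iff b hm _).1 (hy2 hm) j
      have h2 : pair b j (cc (R b (y, cc y))) (a (R b (y, cc y))) =
          (Real.exp (-(1 / 2) * Real.log (∑ i with b i = j, ‖y i‖ ^ 2)) : ℂ) *
            pair b j (cc y) (a (R b (y, cc y))) := by
        rw [pair, pair, Finset.mul_sum]
        refine Finset.sum_congr rfl fun i hi => ?_
        have hb := (Finset.mem_filter.mp hi).2
        have e : cc (R b (y, cc y)) i =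
            (Real.exp (-(1 / 2) * Real.log (∑ i with b i = j, ‖y i‖ ^ 2)) : ℂ) * cc y i := by
          have e1 : -(1 / 2) * Complex.log (S b (b i) (y, cc y)) =
              ((-(1 / 2) * Real.log (∑ i with b i = j, ‖y i‖ ^ 2) : ℝ) : ℂ) := by
            rw [hb, S_diag, ← Complex.ofReal_log (hy1 j).le]
            push_cast
            ring
          show conj (y i * Complex.exp (-(1 / 2) * Complex.log (S b (b i) (y, cc y)))) = _
          rw [e1, ← Complex.ofReal_exp, map_mul, Complex.conj_ofReal, mul_comm]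
          rfl
        rw [e]
        ring
      rw [h2] at h1
      rcases mul_eq_zero.1 h1 with h3 | h3
      · exact absurd h3 (by exact_mod_cast (Real.exp_pos _).ne')
      · exact h3
  have hall : ∀ᶠ z in 𝓝 (q, cc q), ∀ j, pair b j z.2 (a (R b z)) = 0 := eventually_all.2 hG
  -- normalise the second argument
  have hS : ∀ᶠ z in 𝓝 (q, cc q), ∀ j, S b j z ≠ 0 := by
    rw [eventually_all]
    intro j
    exact (S_analytic b j _).continuousAt.eventually_ne (by rw [S_base b j hq]; exact one_ne_zero)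
  have hnorm : Tendsto (fun z : (Fin N → ℂ) × (Fin N → ℂ) =>
      (z.1, fun i => z.2 i / S b (b i) z)) (𝓝 (q, cc q)) (𝓝 (q, cc q)) := by
    have h1 : ContinuousAt (fun z : (Fin N → ℂ) × (Fin N → ℂ) =>
        (z.1, fun i => z.2 i / S b (b i) z)) (q, cc q) := by
      refine continuousAt_fst.prodMk (continuousAt_pi.2 fun i => ?_)
      refine (snd_an i _).continuousAt.div (S_analytic b (b i) _).continuousAt ?_
      rw [S_base b _ hq]
      exact one_ne_zero
    have h2 := h1.tendsto
    have e : ((q, fun i => cc q i / S b (b i) (q, cc q)) : (Fin N → ℂ) × (Fin N → ℂ)) =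
        (q, cc q) := by
      refine Prod.ext rfl ?_
      funext i
      simp [S_base b _ hq]
    simp only at h2
    rwa [e] at h2
  have hlin : ∀ᶠ z in 𝓝 (q, cc q), ∀ j, pair b j z.2 (a z.1) = 0 := by
    filter_upwards [hnorm.eventually hall, hS] with z hz hz' j
    have hS1 : ∀ j, S b j (z.1, fun i => z.2 i / S b (b i) z) = 1 := by
      intro j
      have : S b j (z.1, fun i => z.2 i / S b (b i) z) = (S b j z)⁻¹ * pair b j z.2 z.1 := by
        show pair b j (fun i => z.2 i / S b (b i) z) z.1 = _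
        rw [pair, pair, Finset.mul_sum]
        refine Finset.sum_congr rfl fun i hi => ?_
        rw [(Finset.mem_filter.mp hi).2]
        ring
      rw [this]
      exact inv_mul_cancel₀ (hz' j)
    have h1 := hz j
    rw [R_of_S b _ hS1] at h1
    have h2 : pair b j (fun i => z.2 i / S b (b i) z) (a z.1) = (S b j z)⁻¹ * pair b j z.2 (a z.1) := by
      rw [pair, pair, Finset.mul_sum]
      refine Finset.sum_congr rfl fun i hi => ?_
      rw [(Finset.mem_filter.mp hi).2]
      ring
    simp only at h1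
    rw [h2] at h1
    rcases mul_eq_zero.1 h1 with h3 | h3
    · exact absurd h3 (inv_ne_zero (hz' j))
    · exact h3
  filter_upwards [hlin.curry_nhds] with x hx
  funext i
  have hx0 := hx.self_of_nhds
  have hline : Tendsto (fun t : ℂ => cc q + t • (Pi.single i 1 : Fin N → ℂ)) (𝓝 0) (𝓝 (cc q)) := by
    have hc : Continuous (fun t : ℂ => cc q + t • (Pi.single i 1 : Fin N → ℂ)) := by fun_prop
    have h := hc.tendsto 0
    simpa using h
  have hev := hline.eventually hx
  obtain ⟨t, ht, hne⟩ := ((hev.filter_mono nhdsWithin_le_nhds).and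
      (self_mem_nhdsWithin : {w | w ≠ (0 : ℂ)} ∈ 𝓝[≠] (0 : ℂ))).exists
  have h1 := ht (b i)
  have h2 := hx0 (b i)
  have h3 : pair b (b i) (cc q + t • (Pi.single i 1 : Fin N → ℂ)) (a x) =
      pair b (b i) (cc q) (a x) + t * a x i := by
    rw [pair, pair]
    simp only [Pi.add_apply, Pi.smul_apply, smul_eq_mul, add_mul, Finset.sum_add_distrib]
    congr 1
    rw [Finset.sum_eq_single i]
    · simp
    · intro l _ hl
      simp [hl]
    · intro h
      exact (h (Finset.mem_filter.mpr ⟨Finset.mem_univ _, rfl⟩)).elim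
  rw [h3, h2, zero_add] at h1
  rcases mul_eq_zero.1 h1 with h4 | h4
  · exact absurd h4 hne
  · exact h4

end Pool.Agent.KS6_64.JD
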