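import Pool.Agent.KS6_64.JD.Basic

/-!
# Products of spheres are compact and connected
-/

set_option autoImplicit false

open scoped Topology
open Set Filter Complex

namespace Pool.Agent.KS6_64.JD

variable {N d : ℕ}

/-- the factors of the product -/
abbrev Fac (b : Fin N → Fin d) (j : Fin d) : Type := EuclideanSpace ℂ {i : Fin N // b i = j}

theorem rank_fac (b : Fin N → Fin d) (hb : Function.Surjective b) (j : Fin d) :
    1 < Module.rank ℝ (Fac b j) := by
  obtain ⟨i, hi⟩ := hb j
  have : Nonempty {i : Fin N // b i = j} := ⟨⟨i, hi⟩⟩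
  rw [rank_real_of_complex]
  have h1 : Module.rank ℂ (Fac b j) = (Fintype.card {i : Fin N // b i = j} : Cardinal) := by
    rw [← Module.finrank_eq_rank, finrank_euclideanSpace]
  rw [h1]
  have h2 : 1 ≤ Fintype.card {i : Fin N // b i = j} := Fintype.card_pos
  have h3 : 1 < 2 * Fintype.card {i : Fin N // b i = j} := by omega
  exact_mod_cast h3

/-- the assembling map -/
def assemble (b : Fin N → Fin d) (y : ∀ j, Fac b j) : Fin N → ℂ := fun i => y (b i) ⟨i, rfl⟩

theorem assemble_continuous (b : Fin N → Fin d) : Continuous (assemble b) := by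
  refine continuous_pi fun i => ?_
  have h1 : Continuous fun y : (∀ j, Fac b j) => y (b i) := continuous_apply (b i)
  exact (EuclideanSpace.proj (𝕜 := ℂ) (⟨i, rfl⟩ : {l : Fin N // b l = b i})).continuous.comp h1

theorem image_assemble (b : Fin N → Fin d) :
    assemble b '' (univ.pi fun j => Metric.sphere (0 : Fac b j) 1) = Spheres b := by
  have key : ∀ (y : ∀ j, Fac b j) (j : Fin d),
      ∑ i with b i = j, ‖assemble b y i‖ ^ 2 = ‖y j‖ ^ 2 := by
    intro y j
    rw [EuclideanSpace.norm_sq_eq, Finset.sum_subtype (p := fun i => b i = j) _ (by simp)]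
    refine Finset.sum_congr rfl fun i _ => ?_
    obtain ⟨i, rfl⟩ := i
    rfl
  ext x
  constructor
  · rintro ⟨y, hy, rfl⟩
    intro j
    have h := hy j (mem_univ j)
    rw [mem_sphere_zero_iff_norm] at h
    rw [key, h, one_pow]
  · intro hx
    refine ⟨fun j => WithLp.toLp 2 fun i => x i.1, ?_, rfl⟩
    intro j _
    rw [mem_sphere_zero_iff_norm]
    have h1 := key (fun j => WithLp.toLp 2 fun i => x i.1) j
    have h2 : ∑ i with b i = j, ‖assemble b (fun j => WithLp.toLp 2 fun i => x i.1) i‖ ^ 2 =
        ∑ i with b i = j, ‖x i‖ ^ 2 := rfl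
    rw [h2, hx j] at h1
    have h3 := norm_nonneg ((fun j => WithLp.toLp 2 fun i => x i.1 : ∀ j, Fac b j) j)
    nlinarith

theorem compact (b : Fin N → Fin d) : IsCompact (Spheres b) := by
  rw [← image_assemble]
  refine IsCompact.image ?_ (assemble_continuous b)
  exact isCompact_univ_pi fun j => isCompact_sphere _ _

theorem connected (b : Fin N → Fin d) (hb : Function.Surjective b) : IsConnected (Spheres b) := by
  rw [← image_assemble]
  refine IsConnected.image ?_ _ (assemble_continuous b).continuousOn
  exact isConnected_univ_pi.2 fun j => isConnected_sphere (rank_fac b hb j) _ zero_le_one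

end Pool.Agent.KS6_64.JD
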