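import Pool.Graph.R_seed8.Helper706.JD.Final
import Pool.Agent.KS6_64.JD.Nondeg
import Pool.Agent.KS6_64.JD.Topology
import Pool.Agent.KS6_64.JD.Jets
import Pool.Agent.KS6_64.JD.FType

/-!
# The dimensions and codimensions in which finite jet determination always holds
-/

set_option autoImplicit false

open scoped Topology ContDiff ComplexConjugate
open Set Filter Complex

namespace Pool.Agent.KS6_64.JD

open Pool.Agent.Results.MP_51bf1a_an.JetDet

variable {N d : ℕ}

theorem spheres_determined {b : Fin N → Fin d} (hb : Function.Surjective b)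
    (h2 : ∀ i, ∃ i', i' ≠ i ∧ b i' = b i) :
    ∀ p ∈ Spheres b, ∃ k, DeterminedByJets (Spheres b) p k := by
  obtain ⟨q, hq⟩ := (connected b hb).nonempty
  exact determined (generic b) (connected b hb) (nondegenerate b) ⟨q, hq, finiteType b h2 hq⟩

/-- open sets of positive dimension are holomorphically degenerate -/
theorem codim_zero {M : Set (Fin N → ℂ)} (hM : IsGenericSubmanifold 0 M)
    (hH : HolomorphicallyNondegenerate 0 M) (p : Fin N → ℂ) (hp : p ∈ M) :
    ∃ k, DeterminedByJets M p k := by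
  rcases Nat.eq_zero_or_pos N with hN | hN
  · subst hN
    exact ⟨0, fun H₁ H₂ _ _ _ => Eventually.of_forall fun x => Subsingleton.elim _ _⟩
  · exfalso
    set e : Fin N → ℂ := Pi.single ⟨0, hN⟩ 1 with he
    have h := hH p hp (fun _ => e) analyticAt_const (Eventually.of_forall fun x hx => by
      obtain ⟨ρ, hρ⟩ := hM x hx
      exact ⟨⟨ρ, hρ, Subsingleton.elim _ _⟩, ⟨ρ, hρ, Subsingleton.elim _ _⟩⟩)
    have h1 := congrFun h.self_of_nhds ⟨0, hN⟩
    simp [he] at h1

theorem codim_le {M : Set (Fin N → ℂ)} (hM : IsGenericSubmanifold d M) (hne : M.Nonempty) :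
    d ≤ N := by
  obtain ⟨q, hq⟩ := hne
  obtain ⟨ρ, -, -, h3, h4⟩ := hM q hq
  have h := (lamC_surj_iff (fderiv ℝ ρ q)).1 ⟨h3, h4⟩
  have h5 := LinearMap.finrank_le_finrank_of_surjective h
  simpa using h5

/-- the blocks `{0}, ..., {d - 2}, {d - 1, ..., N - 1}` -/
def blocks (N : ℕ) {d : ℕ} (hd : 1 ≤ d) (i : Fin N) : Fin d := ⟨min i (d - 1), by omega⟩

theorem exists_blocks (hd : ¬ (d = 0 ∨ N < d ∨ (d = 1 ∧ 2 ≤ N))) :
    ∃ b : Fin N → Fin d, Function.Surjective b ∧ ∃ i, ∀ i', b i' = b i → i' = i := by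
  have h1 : 1 ≤ d := by omega
  have h2 : d ≤ N := by omega
  refine ⟨blocks N h1, ?_, ⟨0, by omega⟩, ?_⟩
  · intro j
    refine ⟨⟨j, by omega⟩, ?_⟩
    apply Fin.ext
    show min (j : ℕ) (d - 1) = j
    omega
  · intro i' h
    have h' := congrArg Fin.val h
    apply Fin.ext
    have h3 : min (i' : ℕ) (d - 1) = min 0 (d - 1) := h'
    show (i' : ℕ) = 0
    have := i'.2
    omega

theorem dimension_iff (N d : ℕ) :
    (∀ M : Set (Fin N → ℂ), IsGenericSubmanifold d M → IsConnected M →
      HolomorphicallyNondegenerate d M → ∀ p ∈ M, ∃ k, DeterminedByJets M p k) ↔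
      d = 0 ∨ N < d ∨ (d = 1 ∧ 2 ≤ N) := by
  constructor
  · intro h
    by_contra hd
    obtain ⟨b, hb, i, hi⟩ := exists_blocks hd
    obtain ⟨p, hp⟩ := (connected b hb).nonempty
    obtain ⟨k, hk⟩ := h (Spheres b) (generic b) (connected b hb) (nondegenerate b) p hp
    exact no_jets hi hp k hk
  · rintro (rfl | h | ⟨rfl, h⟩) M hM hc hH
    · exact codim_zero hM hH
    · exact absurd (codim_le hM hc.nonempty) (by omega)
    · exact determined hM hc hH (ft_of_hypersurface h hM hc.nonempty hH)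

end Pool.Agent.KS6_64.JD
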